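import Pool.Agent.Helper27.GF.Cal1

/-!
# Project GF: translations, dilations and the Dirichlet form (additions to Helper27/GF/Cal1)
-/

open MeasureTheory Real Set

namespace GF

/-- smooth functions -/
abbrev Smooth (f : Pl → ℝ) : Prop := ContDiff ℝ (⊤ : ℕ∞) f

/-- the Dirichlet form `∫ ∇u·∇v` -/
noncomputable def ip (u v : Pl → ℝ) : ℝ := ∫ x, (dx u x * dx v x + dy u x * dy v x)

/-- the `L¹` norm -/
noncomputable def l1 (f : Pl → ℝ) : ℝ := ∫ x, |f x|

lemma dx_trans {u : ℝ × ℝ → ℝ} (z : ℝ × ℝ) (x : ℝ × ℝ) :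
    dx (fun y => u (y - z)) x = dx u (x - z) := by
  unfold GF.dx
  rw [fderiv_comp_sub]

lemma dy_trans {u : ℝ × ℝ → ℝ} (z : ℝ × ℝ) (x : ℝ × ℝ) :
    dy (fun y => u (y - z)) x = dy u (x - z) := by
  unfold GF.dy
  rw [fderiv_comp_sub]

lemma lap_trans {u : ℝ × ℝ → ℝ} (z : ℝ × ℝ) (x : ℝ × ℝ) :
    lap (fun y => u (y - z)) x = lap u (x - z) := by
  unfold GF.lap
  have h1 : dx (fun y => u (y - z)) = fun y => dx u (y - z) := funext fun y => dx_trans z y
  have h2 : dy (fun y => u (y - z)) = fun y => dy u (y - z) := funext fun y => dy_trans z y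
  rw [h1, h2, dx_trans, dy_trans]

lemma Cc.trans {u : ℝ × ℝ → ℝ} (hu : Cc u) (z : ℝ × ℝ) : Cc (fun y => u (y - z)) := by
  refine ⟨hu.smooth.comp (contDiff_id.sub contDiff_const), ?_⟩
  exact hu.supp.comp_homeomorph (Homeomorph.subRight z)

lemma Cc.dil {u : ℝ × ℝ → ℝ} (hu : Cc u) {r : ℝ} (hr : r ≠ 0) : Cc (fun y => u (r • y)) := by
  refine ⟨hu.smooth.comp (contDiff_const_smul r), ?_⟩
  exact hu.supp.comp_homeomorph (Homeomorph.smulOfNeZero r hr)

lemma Ne.trans {f : ℝ × ℝ → ℝ} (hf : Ne f) (z : ℝ × ℝ) : Ne (fun y => f (y - z)) := by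
  refine ⟨hf.toCc.trans z, ?_⟩
  rw [integral_sub_right_eq_self f z, hf.zero]

lemma Ne.dil {f : ℝ × ℝ → ℝ} (hf : Ne f) {r : ℝ} (hr : r ≠ 0) : Ne (fun y => f (r • y)) := by
  refine ⟨hf.toCc.dil hr, ?_⟩
  rw [Measure.integral_comp_smul, hf.zero, smul_zero]

/-- integration by parts -/
lemma ip_eq_left {u v : ℝ × ℝ → ℝ} (hu : Cc u) (hv : Smooth v) :
    ip u v = - ∫ x, u x * lap v x := int_grad_left hu hv

lemma ip_eq_right {u v : ℝ × ℝ → ℝ} (hu : Cc u) (hv : Smooth v) :
    ip u v = - ∫ x, v x * lap u x := int_grad_right hu hv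

lemma ip_comm (u v : ℝ × ℝ → ℝ) : ip u v = ip v u := by
  unfold ip; congr 1; funext x; ring

lemma ip_add_left {u u' v : ℝ × ℝ → ℝ} (hu : Cc u) (hu' : Cc u') (hv : Smooth v) :
    ip (fun z => u z + u' z) v = ip u v + ip u' v := by
  have h1 : ip (fun z => u z + u' z) v = ∫ x, ((dx u x * dx v x + dy u x * dy v x) +
      (dx u' x * dx v x + dy u' x * dy v x)) := by
    unfold ip
    congr 1
    funext x
    rw [dx_add hu.smooth hu'.smooth, dy_add hu.smooth hu'.smooth]
    ring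
  rw [h1]
  exact integral_add ((hu.dx.mul (smooth_dx hv)).add (hu.dy.mul (smooth_dy hv))).integrable
    ((hu'.dx.mul (smooth_dx hv)).add (hu'.dy.mul (smooth_dy hv))).integrable

lemma ip_smul_left (c : ℝ) {u v : ℝ × ℝ → ℝ} (hu : Smooth u) :
    ip (fun z => c * u z) v = c * ip u v := by
  unfold ip
  rw [← integral_const_mul]
  congr 1
  funext x
  rw [dx_smul c hu, dy_smul c hu]
  ring

lemma ip_self_nonneg (u : ℝ × ℝ → ℝ) : 0 ≤ ip u u := by
  unfold ip
  exact integral_nonneg fun x => add_nonneg (mul_self_nonneg _) (mul_self_nonneg _)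

lemma ip_cs {u v : ℝ × ℝ → ℝ} (hu : Cc u) (hv : Cc v) : |ip u v| ≤ √(ip u u) * √(ip v v) := by
  have hq : ∀ t : ℝ, 0 ≤ ip v v * (t * t) + (2 * ip u v) * t + ip u u := by
    intro t
    have h0 := ip_self_nonneg (fun z => u z + t * v z)
    have e1 : ip (fun z => u z + t * v z) (fun z => u z + t * v z) =
        ip u (fun z => u z + t * v z) + ip (fun z => t * v z) (fun z => u z + t * v z) :=
      ip_add_left hu (hv.smul t) (hu.add (hv.smul t)).smooth
    have e2 : ip u (fun z => u z + t * v z) = ip u u + t * ip u v := by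
      rw [ip_comm, ip_add_left hu (hv.smul t) hu.smooth, ip_smul_left t hv.smooth, ip_comm v u]
    have e3 : ip (fun z => t * v z) (fun z => u z + t * v z) = t * ip u v + t * t * ip v v := by
      rw [ip_smul_left t hv.smooth, ip_comm, ip_add_left hu (hv.smul t) hv.smooth,
        ip_smul_left t hv.smooth]
      ring
    rw [e1, e2, e3] at h0
    linarith
  have hd := discrim_le_zero hq
  unfold discrim at hd
  have h1 : (ip u v) ^ 2 ≤ ip u u * ip v v := by nlinarith
  rw [← Real.sqrt_mul (ip_self_nonneg u)]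
  exact Real.abs_le_sqrt h1

/-- disjoint supports -/
lemma ip_disjoint {u v : ℝ × ℝ → ℝ} (h : Disjoint (tsupport u) (tsupport v)) : ip u v = 0 := by
  unfold ip
  have e : (fun x => dx u x * dx v x + dy u x * dy v x) = fun _ => (0 : ℝ) := by
    funext x
    by_cases hx : x ∈ tsupport u
    · have hx' : x ∉ tsupport v := Set.disjoint_left.1 h hx
      have h1 : dx v x = 0 := image_eq_zero_of_notMem_tsupport (fun h' => hx' (tsupport_dx v h'))
      have h2 : dy v x = 0 := image_eq_zero_of_notMem_tsupport (fun h' => hx' (tsupport_dy v h'))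
      rw [h1, h2, mul_zero, mul_zero, add_zero]
    · have h1 : dx u x = 0 := image_eq_zero_of_notMem_tsupport (fun h' => hx (tsupport_dx u h'))
      have h2 : dy u x = 0 := image_eq_zero_of_notMem_tsupport (fun h' => hx (tsupport_dy u h'))
      rw [h1, h2, zero_mul, zero_mul, add_zero]
  rw [e, integral_zero]

/-- the form is positive -/
lemma ip_pos {u : ℝ × ℝ → ℝ} (hu : Cc u) (h : ∃ z, u z ≠ 0) : 0 < ip u u := int_grad_pos hu h

lemma l1_nonneg (f : ℝ × ℝ → ℝ) : 0 ≤ l1 f := integral_nonneg fun _ => abs_nonneg _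

lemma l1_add_le {f g : ℝ × ℝ → ℝ} (hf : Cc f) (hg : Cc g) :
    l1 (fun z => f z + g z) ≤ l1 f + l1 g := by
  unfold l1
  rw [← integral_add hf.integrable.abs hg.integrable.abs]
  exact integral_mono (hf.integrable.add hg.integrable).abs
    (hf.integrable.abs.add hg.integrable.abs) (fun x => abs_add_le _ _)

lemma l1_smul (c : ℝ) (f : ℝ × ℝ → ℝ) : l1 (fun z => c * f z) = |c| * l1 f := by
  unfold l1
  rw [← integral_const_mul]
  congr 1
  funext x
  rw [abs_mul]

end GF
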